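import Mathlib

/-!
# Weighted translation operators (Bishop operators): definitions and module statements

Paper proof: notes of MP_5ac32f_an, topic BISHOP.
-/

set_option autoImplicit false

universe u

namespace Pool.Agent.Bishop

open MeasureTheory Set Filter
open scoped ENNReal NNReal Topology

/-- `T` has a nontrivial closed hyperinvariant subspace. -/
def HasHyper {E : Type*} [NormedAddCommGroup E] [NormedSpace ℂ E] (T : E →L[ℂ] E) : Prop :=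
  ∃ M : Submodule ℂ E, IsClosed (M : Set E) ∧ M ≠ ⊥ ∧ M ≠ ⊤ ∧
    ∀ A : E →L[ℂ] E, A * T = T * A → ∀ x ∈ M, A x ∈ M

/-- Two sided Birkhoff sums: `S 0 = 0`, `S (n+1) t = S n t + φ (τ^n t)` for all integers `n`. -/
noncomputable def bsum {X : Type*} (φ : X → ℝ) (τ : Equiv.Perm X) (n : ℤ) (t : X) : ℝ :=
  if 0 ≤ n then ∑ j ∈ Finset.range n.toNat, φ ((τ ^ (j : ℤ)) t)
  else - ∑ j ∈ Finset.range (-n).toNat, φ ((τ ^ (-(j : ℤ) - 1)) t)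

/-- Two sided products: `W 0 = 1`, `W (n+1) t = W n t * w (τ^n t)` (if `w` does not vanish on
the orbit of `t`). -/
noncomputable def wprod {X : Type*} (w : X → ℂ) (τ : Equiv.Perm X) (n : ℤ) (t : X) : ℂ :=
  if 0 ≤ n then ∏ j ∈ Finset.range n.toNat, w ((τ ^ (j : ℤ)) t)
  else (∏ j ∈ Finset.range (-n).toNat, w ((τ ^ (-(j : ℤ) - 1)) t))⁻¹

/-- The Birkhoff sums at `t` are close to linear functions on all dyadic windows. -/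
def TameB {X : Type*} (φ : X → ℝ) (τ : Equiv.Perm X) (t : X) : Prop :=
  ∃ s r : ℕ → ℝ, (Summable fun i => r i / 2 ^ i) ∧
    ∀ (i : ℕ) (n : ℤ), |(n : ℝ)| ≤ 2 ^ i → |bsum φ τ n t - n * s i| ≤ r i

/-- `sin z / z`, with value `1` at `0`. -/
noncomputable def csinc (z : ℂ) : ℂ := dslope Complex.sin 0 z

/-- the basic factor -/
noncomputable def fac (σ : ℝ) (M m j : ℕ) (z : ℂ) : ℂ :=
  (1 + σ * z / M) ^ M * (csinc (5 * z / 2 ^ j)) ^ m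

/-- the entire function of small exponential type -/
noncomputable def Ep (σ : ℕ → ℝ) (M m : ℕ → ℕ) (z : ℂ) : ℂ :=
  ∏' j, fac (σ j) (M j) (m j) j z

/-! ## Modules -/

/-- (K) cocycle lemmas. -/
def ModK : Prop :=
  ∀ {X : Type u} (τ : Equiv.Perm X),
    (∀ (φ : X → ℝ) (t : X), bsum φ τ 0 t = 0) ∧
    (∀ (φ : X → ℝ) (n : ℤ) (t : X), bsum φ τ (n + 1) t = bsum φ τ n t + φ ((τ ^ n) t)) ∧
    (∀ (φ : X → ℝ) (n m : ℤ) (t : X),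
      bsum φ τ (n + m) t = bsum φ τ n t + bsum φ τ m ((τ ^ n) t)) ∧
    (∀ (φ : X → ℝ) (n : ℤ) (t : X),
      bsum (fun u => φ (τ.symm u)) τ.symm n t = - bsum φ τ (-n) t) ∧
    (∀ (φ : X → ℝ) (t : X), TameB φ τ t → TameB (fun u => φ (τ.symm u)) τ.symm t) ∧
    (∀ (w : X → ℂ) (t : X), wprod w τ 0 t = 1) ∧
    (∀ (w : X → ℂ) (t : X), (∀ n : ℤ, w ((τ ^ n) t) ≠ 0) →
      ∀ n : ℤ, wprod w τ n t ≠ 0 ∧ wprod w τ (n + 1) t = wprod w τ n t * w ((τ ^ n) t) ∧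
        ‖wprod w τ n t‖ = Real.exp (bsum (fun u => Real.log ‖w u‖) τ n t))

/-- (L) A periodic function analytic in a vertical strip, of small growth, vanishes. -/
def ModL : Prop :=
  ∀ (h : ℂ → ℂ) (C b : ℝ), 0 ≤ b → b < Real.pi →
    DifferentiableOn ℂ h {z | |z.re| < 2} →
    (∀ z : ℂ, |z.re| < 2 → |z.re + 1| < 2 → h (z + 1) = h z) →
    (∀ z : ℂ, |z.re| < 2 → ‖h z‖ ≤ C * Real.exp (Real.pi * z.im + b * |z.im|)) → h 0 = 0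

/-- (F) the factor. -/
def ModF : Prop :=
  (∀ (σ : ℝ) (M m j : ℕ), Differentiable ℂ (fac σ M m j)) ∧
  (∀ (σ : ℝ) (M m j : ℕ), fac σ M m j 0 = 1) ∧
  (∀ (σ : ℝ) (M m j : ℕ) (z : ℂ), 2 ^ (j + 1) * |σ| ≤ M → M ≤ m → |z.re| ≤ 2 ^ j →
    ‖fac σ M m j z‖ ≤ Real.exp (σ * z.re + (2 * |σ| + 5 * m / 2 ^ j) * |z.im|)) ∧
  (∀ (σ : ℝ) (M m j : ℕ) (z : ℂ), 2 ^ (j + 1) * |σ| ≤ M → M ≤ m → 2 ^ j ≤ |z.re| →
    ‖fac σ M m j z‖ ≤ Real.exp (-((m : ℝ) - M) + (2 * |σ| + 5 * m / 2 ^ j) * |z.im|)) ∧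
  (∀ (σ : ℝ) (M m j : ℕ) (z : ℂ) (R : ℝ), 2 ^ (j + 1) * |σ| ≤ M → M ≤ m → ‖z‖ ≤ R →
    ‖fac σ M m j z - 1‖ ≤ Real.exp ((R + 5 * R * Real.exp (5 * R)) * (m / 2 ^ j)) - 1)

/-- (P) the infinite product. -/
def ModP : Prop :=
  ∀ (σ : ℕ → ℝ) (M m : ℕ → ℕ), (∀ j, 2 ^ (j + 1) * |σ j| ≤ M j) → (∀ j, M j ≤ m j) →
    (Summable fun j => (m j : ℝ) / 2 ^ j) →
    Differentiable ℂ (Ep σ M m) ∧ Ep σ M m 0 = 1 ∧ Summable σ ∧
    (∀ (i : ℕ) (z : ℂ), (∀ j < i, m j = 0) → |z.re| ≤ 2 ^ i →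
      ‖Ep σ M m z‖ ≤ Real.exp (z.re * (∑' j, σ (i + j)) + 6 * (∑' j, (m j : ℝ) / 2 ^ j) * |z.im|)) ∧
    (∀ (i : ℕ) (z : ℂ), 2 ^ i ≤ |z.re| → |z.re| ≤ 2 ^ (i + 1) →
      ‖Ep σ M m z‖ ≤ Real.exp (z.re * (∑' j, σ (i + 1 + j)) - ((m i : ℝ) - M i)
        + 6 * (∑' j, (m j : ℝ) / 2 ^ j) * |z.im|))

/-- (PM) measurable dependence of the infinite product on parameters. -/
def ModPM : Prop :=
  ∀ {S : Type u} [MeasurableSpace S] (σ : S → ℕ → ℝ) (M m : S → ℕ → ℕ),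
    (∀ j, Measurable fun s => σ s j) → (∀ j, Measurable fun s => M s j) →
    (∀ j, Measurable fun s => m s j) →
    (∀ s j, 2 ^ (j + 1) * |σ s j| ≤ M s j) → (∀ s j, M s j ≤ m s j) →
    (∀ s, Summable fun j => (m s j : ℝ) / 2 ^ j) →
    ∀ z : ℂ, Measurable fun s => Ep (σ s) (M s) (m s) z

/-- (T) tame points carry entire functions. -/
def ModT : Prop :=
  ∀ {X : Type u} [MeasurableSpace X] (μ : Measure X) (τ : Equiv.Perm X),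
    Measurable τ → Measurable τ.symm → ∀ (φ : X → ℝ), Measurable φ → ∀ (a : ℝ), 0 < a →
    ∀ (G : Set X), μ G ≠ 0 → (∀ t ∈ G, TameB φ τ t) →
    ∃ (G₁ : Set X) (E : X → ℂ → ℂ) (C : ℝ), MeasurableSet G₁ ∧ μ (G ∩ G₁) ≠ 0 ∧
      (∀ z, Measurable fun s => E s z) ∧ (∀ s, Differentiable ℂ (E s)) ∧ (∀ s ∈ G₁, E s 0 = 1) ∧
      ∀ s ∈ G₁, ∀ (n : ℤ) (z : ℂ), |z.re| < 2 →
        ‖E s (z + n)‖ ≤ C * Real.exp (a * |z.im|) * Real.exp (bsum φ τ n s) / (1 + (n : ℝ) ^ 2)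

/-- (D) analytic families of bounded functions on a set of finite measure give analytic
functions into `L^p`. -/
def ModD : Prop :=
  ∀ {X : Type u} [MeasurableSpace X] (μ : Measure X) (p : ℝ≥0∞) [Fact (1 ≤ p)]
    (G : Set X), MeasurableSet G → μ G < ∞ → ∀ (θ : X → X), MeasurePreserving θ μ μ →
    ∀ (U : Set ℂ), IsOpen U → ∀ (g : ℂ → X → ℂ) (c a : ℝ),
    (∀ z ∈ U, Measurable (g z)) → (∀ s, DifferentiableOn ℂ (fun z => g z s) U) →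
    (∀ z ∈ U, ∀ s, ‖g z s‖ ≤ c * Real.exp (a * |z.im|)) → (∀ z s, s ∉ G → g z s = 0) →
    ∃ F : ℂ → Lp ℂ p μ, DifferentiableOn ℂ F U ∧
      (∀ z ∈ U, (F z : X → ℂ) =ᵐ[μ] fun t => g z (θ t)) ∧
      (∀ z ∈ U, ‖F z‖ ≤ c * Real.exp (a * |z.im|) * max 1 (μ G).toReal)

/-- (U) construction of the orbit function `U(z) = sum_m w_m E(z - m)` in `L^p`. -/
def ModU : Prop :=
  ∀ {X : Type u} [MeasurableSpace X] (μ : Measure X) (τ : Equiv.Perm X),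
    MeasurePreserving τ μ μ → Measurable τ.symm →
    ∀ (w : X → ℂ), Measurable w → ∀ (p : ℝ≥0∞) [Fact (1 ≤ p)]
    (G : Set X), MeasurableSet G → μ G < ∞ → μ G ≠ 0 →
    (∀ s ∈ G, ∀ n : ℤ, w ((τ ^ n) s) ≠ 0) →
    ∀ (E : X → ℂ → ℂ) (C a : ℝ) (N : ℕ),
    (∀ z, Measurable fun s => E s z) → (∀ s, Differentiable ℂ (E s)) → (∀ s ∈ G, E s 0 = 1) →
    (∀ s ∈ G, ∀ (n : ℤ) (z : ℂ), |z.re| < 2 →
      ‖E s (z + n)‖ ≤ C * Real.exp (a * |z.im|) * ‖wprod w τ n s‖ / (1 + (n : ℝ) ^ 2)) →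
    (∀ n : ℤ, n ≠ 0 → |n| ≤ N → Disjoint G ((τ ^ n) ⁻¹' G)) →
    (∑' n : ℤ, if |n| ≤ N then 0 else C / (1 + (n : ℝ) ^ 2)) ≤ 1 / 2 →
    ∃ U : ℂ → Lp ℂ p μ, DifferentiableOn ℂ U {z | |z.re| < 2} ∧
      (∀ z : ℂ, |z.re| < 2 → |z.re + 1| < 2 →
        (U (z + 1) : X → ℂ) =ᵐ[μ] fun t => w t * (U z : X → ℂ) (τ t)) ∧
      (∃ C' : ℝ, ∀ z : ℂ, |z.re| < 2 → ‖U z‖ ≤ C' * Real.exp (a * |z.im|)) ∧ U 0 ≠ 0

/-- (H) two orbit functions give a hyperinvariant subspace. -/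
def ModH : Prop :=
  ∀ {X : Type u} [MeasurableSpace X] (μ : Measure X) [SigmaFinite μ] (τ : Equiv.Perm X),
    MeasurePreserving τ μ μ → Measurable τ.symm →
    ∀ (w : X → ℂ), Measurable w → (∃ C : ℝ, ∀ t, ‖w t‖ ≤ C) →
    ∀ (p q : ℝ≥0∞) [Fact (1 ≤ p)] [Fact (1 ≤ q)] [ENNReal.HolderConjugate p q]
      (T : Lp ℂ p μ →L[ℂ] Lp ℂ p μ),
      (∀ f : Lp ℂ p μ, (T f : X → ℂ) =ᵐ[μ] fun t => w t * (f : X → ℂ) (τ t)) →
    ∀ (U : ℂ → Lp ℂ p μ) (V : ℂ → Lp ℂ q μ) (C a : ℝ), 0 ≤ a → 2 * a < Real.pi →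
      DifferentiableOn ℂ U {z | |z.re| < 2} → DifferentiableOn ℂ V {z | |z.re| < 2} →
      (∀ z : ℂ, |z.re| < 2 → |z.re + 1| < 2 →
        (U (z + 1) : X → ℂ) =ᵐ[μ] fun t => w t * (U z : X → ℂ) (τ t)) →
      (∀ z : ℂ, |z.re| < 2 → |z.re + 1| < 2 →
        (V (z + 1) : X → ℂ) =ᵐ[μ] fun t => -(w (τ.symm t)) * (V z : X → ℂ) (τ.symm t)) →
      (∀ z : ℂ, |z.re| < 2 → ‖U z‖ ≤ C * Real.exp (a * |z.im|)) →
      (∀ z : ℂ, |z.re| < 2 → ‖V z‖ ≤ C * Real.exp (a * |z.im|)) →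
      U 0 ≠ 0 → V 0 ≠ 0 → HasHyper T

/-- (A) aperiodicity: sets with disjoint iterates. -/
def ModA : Prop :=
  ∀ {X : Type u} [TopologicalSpace X] [SecondCountableTopology X] [T2Space X]
    [MeasurableSpace X] [BorelSpace X] (μ : Measure X) [SigmaFinite μ] (τ : Equiv.Perm X),
    Measurable τ → Measurable τ.symm → (∀ n : ℤ, n ≠ 0 → ∀ᵐ t ∂μ, (τ ^ n) t ≠ t) →
    ∀ (G : Set X), MeasurableSet G → μ G ≠ 0 → ∀ N : ℕ,
    ∃ G' ⊆ G, MeasurableSet G' ∧ μ G' ≠ 0 ∧ μ G' < ∞ ∧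
      ∀ n : ℤ, n ≠ 0 → |n| ≤ N → Disjoint G' ((τ ^ n) ⁻¹' G')

/-- (G) the general theorem. -/
def ModG : Prop :=
  ∀ {X : Type u} [TopologicalSpace X] [SecondCountableTopology X] [T2Space X]
    [MeasurableSpace X] [BorelSpace X] (μ : Measure X) [SigmaFinite μ] (τ : Equiv.Perm X),
    MeasurePreserving τ μ μ → Measurable τ.symm →
    (∀ n : ℤ, n ≠ 0 → ∀ᵐ t ∂μ, (τ ^ n) t ≠ t) →
    ∀ (w : X → ℂ), Measurable w → (∃ C : ℝ, ∀ t, ‖w t‖ ≤ C) →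
    ∀ (G : Set X), μ G ≠ 0 → (∀ t ∈ G, (∀ n : ℤ, w ((τ ^ n) t) ≠ 0) ∧
      TameB (fun u => Real.log ‖w u‖) τ t) →
    ∀ (p : ℝ≥0∞) [Fact (1 ≤ p)] (T : Lp ℂ p μ →L[ℂ] Lp ℂ p μ),
      (∀ f : Lp ℂ p μ, (T f : X → ℂ) =ᵐ[μ] fun t => w t * (f : X → ℂ) (τ t)) → HasHyper T

/-! ## Rotations of the circle -/

/-- rotation by `a` -/
noncomputable def rot (a : UnitAddCircle) : Equiv.Perm UnitAddCircle := Equiv.addRight a

/-- average over the orbit of length `q` of the rotation by `ρ`. -/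
noncomputable def avgq (φ : UnitAddCircle → ℝ) (q : ℕ) (ρ : UnitAddCircle)
    (t : UnitAddCircle) : ℝ := (∑ j ∈ Finset.range q, φ (t + j • ρ)) / q

/-- (CF) convergents. -/
def ModCF : Prop :=
  ∀ (α : ℝ), Irrational α → ∃ (p : ℕ → ℤ) (q : ℕ → ℕ), q 0 = 1 ∧ (∀ k, 0 < q k) ∧
    (∀ k, IsCoprime (p k) (q k : ℤ)) ∧ (∀ k, q k ≤ q (k + 1)) ∧ (∀ k, 2 * q k ≤ q (k + 2)) ∧
    (∀ k, |α - (p k : ℝ) / q k| ≤ 1 / ((q k : ℝ) * q (k + 1))) ∧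
    (∀ k, |(p (k + 1) : ℝ) / q (k + 1) - (p k : ℝ) / q k| ≤ 1 / ((q k : ℝ) * q (k + 1)))

/-- (R1) pointwise comparison of the Birkhoff sums of the rotation by `ρ k` with linear
functions. -/
def ModR1 : Prop :=
  ∀ (φ : UnitAddCircle → ℝ) (c : ℝ) (q : ℕ → ℕ) (ρ : ℕ → UnitAddCircle) (t : UnitAddCircle)
    (D : ℕ → ℝ), q 0 = 1 → (∀ k, 0 < q k) → (∀ k, q k • ρ k = 0) → D 0 = 0 →
    (∀ k, D (k + 1) = D k + (∑ j ∈ Finset.range (q (k + 1)), |φ (t + j • ρ (k + 1)) - φ (t + j • ρ k)|)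
      + q (k + 1) * |avgq φ (q k) (ρ k) t - c|
      + q (k + 1) * |avgq φ (q (k + 1)) (ρ (k + 1)) t - c|) →
    ∀ (k : ℕ) (n : ℤ), |bsum φ (rot (ρ k)) n t - n * avgq φ (q k) (ρ k) t| ≤ D k

/-- (R1') pointwise comparison of two rotations. -/
def ModR1' : Prop :=
  ∀ (φ : UnitAddCircle → ℝ) (a b t : UnitAddCircle) (N : ℕ) (n : ℤ), |n| ≤ N →
    |bsum φ (rot a) n t - bsum φ (rot b) n t| ≤
      (∑ j ∈ Finset.range N, |φ (t + j • a) - φ (t + j • b)|)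
      + ∑ j ∈ Finset.range N, |φ (t - (j + 1) • a) - φ (t - (j + 1) • b)|

/-- (R2) `L^1` distance of the averages over the rational rotation from the mean. -/
def ModR2 : Prop :=
  ∀ (φ : UnitAddCircle → ℝ), Integrable φ volume → ∀ (p : ℤ) (q : ℕ), 0 < q →
    IsCoprime p (q : ℤ) → ∀ (ω : ℝ),
    (∀ u : ℝ, 0 ≤ u → u ≤ 1 / q → ∫ t, |φ (t + (u : UnitAddCircle)) - φ t| ≤ ω) →
    ∫ t, |avgq φ q (((p : ℝ) / q : ℝ) : UnitAddCircle) t - ∫ s, φ s| ≤ ω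

/-- (R) irrational rotations: almost every point is tame if the `L^1` modulus of continuity of `φ`
is summable. -/
def ModR : Prop :=
  ∀ (φ : UnitAddCircle → ℝ), Measurable φ → Integrable φ volume → ∀ (ω : ℕ → ℝ),
    (Summable fun j : ℕ => (j + 1 : ℝ) * ω j) →
    (∀ (j : ℕ) (u : ℝ), |u| ≤ 1 / 2 ^ j → ∫ t, |φ (t + (u : UnitAddCircle)) - φ t| ≤ ω j) →
    ∀ α : ℝ, Irrational α → ∀ᵐ t : UnitAddCircle, TameB φ (rot (α : UnitAddCircle)) t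

/-- the coordinate in `[0,1)` of a point of the circle. -/
noncomputable def coord (t : UnitAddCircle) : ℝ := (AddCircle.equivIco (1 : ℝ) 0 t : ℝ)

/-- (W) the weight of the Bishop operator. -/
def ModW : Prop :=
  Measurable coord ∧ (∀ t, |coord t| ≤ 1) ∧ (∀ᵐ t : UnitAddCircle, coord t ≠ 0) ∧
  Integrable (fun t : UnitAddCircle => Real.log (coord t)) volume ∧
  ∃ ω : ℕ → ℝ, (Summable fun j : ℕ => (j + 1 : ℝ) * ω j) ∧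
    ∀ (j : ℕ) (u : ℝ), |u| ≤ 1 / 2 ^ j →
      ∫ t : UnitAddCircle, |Real.log (coord (t + (u : UnitAddCircle))) - Real.log (coord t)| ≤ ω j

/-- (Q) rational rotation angles. -/
def ModQ : Prop :=
  ∀ (p : ℝ≥0∞) [Fact (1 ≤ p)] (α : ℝ), ¬ Irrational α →
    ∀ T : Lp ℂ p (volume : Measure UnitAddCircle) →L[ℂ] Lp ℂ p (volume : Measure UnitAddCircle),
    (∀ f, (T f : UnitAddCircle → ℂ) =ᵐ[volume]
      fun t => (coord t : ℂ) * (f : UnitAddCircle → ℂ) (t + (α : UnitAddCircle))) → HasHyper T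

end Pool.Agent.Bishop
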