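import Pool.Agent.Lib_helper15.Bishop.Final
import Pool.Agent.Lib_helper84.Bishop.ModK
import Pool.Agent.Lib_helper84.Bishop.ModR1
import Pool.Agent.Lib_helper84.Bishop.ModR2
import Pool.Agent.Lib_helper52.Bishop.ModU
import Pool.Agent.Lib_helper52.Bishop.ModX0
import Pool.Agent.Lib_helper93.Bishop.ModD
import Pool.Agent.Lib_helper93.Bishop.ModQ
import Pool.Agent.Lib_helper95.Bishop.ModL
import Pool.Agent.Lib_helper96.Bishop.ModH
import Pool.Agent.Lib_helper69.Bishop.ModP
import Pool.Agent.Lib_helper47.Bishop.ModT
import Pool.Agent.Lib_helper27.Bishop.ModA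
import Pool.Agent.Lib_helper27.Bishop.ModW
import Pool.Agent.Lib_helper68.Bishop.ModF

/-!
# Weighted translation operators: all modules together
-/

set_option autoImplicit false

universe u

namespace Pool.Agent.Bishop

open MeasureTheory Set Filter
open scoped ENNReal NNReal Topology

theorem modG_all : ModG.{u} :=
  modG modK modA (modT (modP modF) modPM) (modU modD modK) (modH modL)

theorem modR_all : ModR := modR modCF modR1 modR1' modR2

end Pool.Agent.Bishop
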