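import Pool.Agent.Lib_helper15.Bishop.Defs

/-!
# Convergents of an irrational number
-/

set_option autoImplicit false

universe u

namespace Pool.Agent.Bishop

/-- state of the continued fraction algorithm -/
structure CFState where
  x : ℝ
  p : ℤ
  p' : ℤ
  q : ℕ
  q' : ℕ

noncomputable def cfStep (s : CFState) : CFState where
  x := 1 / (s.x - ⌊s.x⌋)
  p := ⌊s.x⌋ * s.p + s.p'
  p' := s.p
  q := ⌊s.x⌋₊ * s.q + s.q'
  q' := s.q

noncomputable def cfSt (α : ℝ) : ℕ → CFState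
  | 0 => ⟨1 / (α - ⌊α⌋), ⌊α⌋, 1, 1, 0⟩
  | k + 1 => cfStep (cfSt α k)

lemma irr_inv_fract {x : ℝ} (hx : Irrational x) :
    Irrational (1 / (x - ⌊x⌋)) ∧ 1 < 1 / (x - ⌊x⌋) := by
  have h1 : Irrational (x - ⌊x⌋) := hx.sub_intCast _
  constructor
  · rw [one_div]
    exact h1.inv
  · have h0 : 0 < x - ⌊x⌋ := by
      have h2 : 0 ≤ x - ⌊x⌋ := by linarith [Int.floor_le x]
      rcases h2.lt_or_eq with h | h
      · exact h
      · exact absurd h.symm h1.ne_zero
    have h3 : x - ⌊x⌋ < 1 := by linarith [Int.lt_floor_add_one x]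
    rw [lt_div_iff₀ h0]
    linarith

lemma cf_inv (α : ℝ) (hα : Irrational α) (k : ℕ) :
    Irrational (cfSt α k).x ∧ 1 < (cfSt α k).x ∧ 0 < (cfSt α k).q ∧
      (cfSt α k).q' ≤ (cfSt α k).q ∧
      ((cfSt α k).p * (cfSt α k).q' - (cfSt α k).p' * (cfSt α k).q = 1 ∨
        (cfSt α k).p * (cfSt α k).q' - (cfSt α k).p' * (cfSt α k).q = -1) ∧
      α * ((cfSt α k).x * (cfSt α k).q + (cfSt α k).q')
        = (cfSt α k).x * (cfSt α k).p + (cfSt α k).p' := by
  induction k with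
  | zero =>
    obtain ⟨h1, h2⟩ := irr_inv_fract hα
    refine ⟨h1, h2, ?_, ?_, ?_, ?_⟩
    · simp [cfSt]
    · simp [cfSt]
    · right; simp [cfSt]
    · have h0 : α - ⌊α⌋ ≠ 0 := (hα.sub_intCast ⌊α⌋).ne_zero
      simp only [cfSt]
      push_cast
      field_simp
      ring
  | succ k ih =>
    obtain ⟨h1, h2, h3, h4, h5, h6⟩ := ih
    set s := cfSt α k with hs
    have hst : cfSt α (k + 1) = cfStep s := rfl
    rw [hst]
    obtain ⟨g1, g2⟩ := irr_inv_fract h1
    have hfl : (⌊s.x⌋₊ : ℤ) = ⌊s.x⌋ := Int.natCast_floor_eq_floor (by linarith)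
    have hflr : ((⌊s.x⌋₊ : ℕ) : ℝ) = (⌊s.x⌋ : ℝ) := by exact_mod_cast congrArg (Int.cast : ℤ → ℝ) hfl
    have hf1 : 1 ≤ ⌊s.x⌋₊ := Nat.le_floor (by simpa using h2.le)
    refine ⟨g1, g2, ?_, ?_, ?_, ?_⟩
    · simp only [cfStep]
      have : 0 < ⌊s.x⌋₊ * s.q := Nat.mul_pos hf1 h3
      omega
    · simp only [cfStep]
      nlinarith
    · simp only [cfStep]
      have hcomp : (⌊s.x⌋ * s.p + s.p') * (s.q : ℤ) - s.p * ((⌊s.x⌋₊ * s.q + s.q' : ℕ) : ℤ)
          = -(s.p * s.q' - s.p' * s.q) := by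
        push_cast
        rw [hfl]
        ring
      rw [hcomp]
      rcases h5 with h | h
      · right; rw [h]
      · left; rw [h]; norm_num
    · have h0 : s.x - ⌊s.x⌋ ≠ 0 := (h1.sub_intCast ⌊s.x⌋).ne_zero
      simp only [cfStep]
      push_cast
      rw [hflr]
      have h7 : α * ((⌊s.x⌋ : ℝ) * s.q + s.q' + (s.x - ⌊s.x⌋) * s.q)
          = (⌊s.x⌋ : ℝ) * s.p + s.p' + (s.x - ⌊s.x⌋) * s.p := by
        linear_combination h6
      field_simp
      linear_combination h7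

theorem modCF : ModCF := by
  intro α hα
  refine ⟨fun k => (cfSt α k).p, fun k => (cfSt α k).q, rfl, fun k => (cf_inv α hα k).2.2.1,
    ?_, ?_, ?_, ?_, ?_⟩
  · intro k
    obtain ⟨h1, h2, h3, h4, h5, h6⟩ := cf_inv α hα k
    rcases h5 with h | h
    · exact ⟨(cfSt α k).q', -(cfSt α k).p', by linear_combination h⟩
    · exact ⟨-(cfSt α k).q', (cfSt α k).p', by linear_combination -h⟩
  · intro k
    obtain ⟨h1, h2, h3, h4, h5, h6⟩ := cf_inv α hα (k + 1)
    exact h4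
  · intro k
    have hA := (cf_inv α hα (k + 1)).2.2.2.1
    obtain ⟨h1, h2, h3, h4, h5, h6⟩ := cf_inv α hα (k + 1)
    have e : (cfSt α (k + 2)).q = ⌊(cfSt α (k + 1)).x⌋₊ * (cfSt α (k + 1)).q + (cfSt α k).q := rfl
    have e' : (cfSt α (k + 1)).q' = (cfSt α k).q := rfl
    have hf1 : 1 ≤ ⌊(cfSt α (k + 1)).x⌋₊ := Nat.le_floor (by simpa using h2.le)
    simp only
    rw [e]
    rw [e'] at hA
    nlinarith
  · intro k
    obtain ⟨h1, h2, h3, h4, h5, h6⟩ := cf_inv α hα k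
    have h7 := (cf_inv α hα (k + 1)).2.2.1
    set s := cfSt α k with hs
    have e : (cfSt α (k + 1)).q = ⌊s.x⌋₊ * s.q + s.q' := rfl
    have hqpos : (0 : ℝ) < s.q := by exact_mod_cast h3
    have hq1pos : (0 : ℝ) < (cfSt α (k + 1)).q := by exact_mod_cast h7
    have hle : ((cfSt α (k + 1)).q : ℝ) ≤ s.x * s.q + s.q' := by
      rw [e]
      push_cast
      have : ((⌊s.x⌋₊ : ℕ) : ℝ) ≤ s.x := Nat.floor_le (by linarith)
      nlinarith
    have hX : 0 < s.x * s.q + s.q' := lt_of_lt_of_le hq1pos hle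
    have hprod : (s.q * α - s.p) * (s.x * s.q + s.q') = -((s.p : ℝ) * s.q' - s.p' * s.q) := by
      linear_combination (s.q : ℝ) * h6
    have habs : |(s.q * α - s.p) * (s.x * s.q + s.q')| = 1 := by
      rw [hprod, abs_neg]
      have h5' : ((s.p : ℝ) * s.q' - s.p' * s.q) = 1 ∨ ((s.p : ℝ) * s.q' - s.p' * s.q) = -1 := by
        rcases h5 with h | h
        · left; exact_mod_cast congrArg (Int.cast : ℤ → ℝ) h
        · right; exact_mod_cast congrArg (Int.cast : ℤ → ℝ) h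
      rcases h5' with h | h <;> rw [h] <;> norm_num
    rw [abs_mul, abs_of_pos hX] at habs
    have hb : |(s.q : ℝ) * α - s.p| ≤ 1 / (cfSt α (k + 1)).q := by
      rw [le_div_iff₀ hq1pos]
      calc |(s.q : ℝ) * α - s.p| * (cfSt α (k + 1)).q
          ≤ |(s.q : ℝ) * α - s.p| * (s.x * s.q + s.q') :=
            mul_le_mul_of_nonneg_left hle (abs_nonneg _)
        _ = 1 := habs
    have : α - (s.p : ℝ) / s.q = (s.q * α - s.p) / s.q := by
      field_simp
    simp only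
    rw [this, abs_div, abs_of_pos hqpos]
    calc |(s.q : ℝ) * α - s.p| / s.q ≤ (1 / (cfSt α (k + 1)).q) / s.q :=
          div_le_div_of_nonneg_right hb hqpos.le
      _ = 1 / ((s.q : ℝ) * (cfSt α (k + 1)).q) := by
          field_simp
  · intro k
    obtain ⟨h1, h2, h3, h4, h5, h6⟩ := cf_inv α hα (k + 1)
    have h0 := (cf_inv α hα k).2.2.1
    have e1 : (cfSt α (k + 1)).q' = (cfSt α k).q := rfl
    have e2 : (cfSt α (k + 1)).p' = (cfSt α k).p := rfl
    rw [e1, e2] at h5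
    have hqpos : (0 : ℝ) < (cfSt α k).q := by exact_mod_cast h0
    have hq1pos : (0 : ℝ) < (cfSt α (k + 1)).q := by exact_mod_cast h3
    have h5' : ((cfSt α (k + 1)).p : ℝ) * (cfSt α k).q - (cfSt α k).p * (cfSt α (k + 1)).q = 1 ∨
        ((cfSt α (k + 1)).p : ℝ) * (cfSt α k).q - (cfSt α k).p * (cfSt α (k + 1)).q = -1 := by
      rcases h5 with h | h
      · left; exact_mod_cast congrArg (Int.cast : ℤ → ℝ) h
      · right; exact_mod_cast congrArg (Int.cast : ℤ → ℝ) h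
    have : ((cfSt α (k + 1)).p : ℝ) / (cfSt α (k + 1)).q - (cfSt α k).p / (cfSt α k).q
        = (((cfSt α (k + 1)).p : ℝ) * (cfSt α k).q - (cfSt α k).p * (cfSt α (k + 1)).q)
          / ((cfSt α k).q * (cfSt α (k + 1)).q) := by
      field_simp
    simp only
    rw [this, abs_div]
    have habs : |((cfSt α (k + 1)).p : ℝ) * (cfSt α k).q - (cfSt α k).p * (cfSt α (k + 1)).q| = 1 := by
      rcases h5' with h | h <;> rw [h] <;> norm_num
    rw [habs, abs_of_pos (mul_pos hqpos hq1pos)]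

end Pool.Agent.Bishop
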