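import Pool.Agent.Lib_helper15.Bishop.Defs

/-!
# Irrational rotations: almost every point is tame
-/

set_option autoImplicit false

universe u

namespace Pool.Agent.Bishop

open MeasureTheory Set Filter
open scoped ENNReal NNReal Topology

/-! ### Summation lemmas -/

lemma summable_prod_add {f : ℕ → ℝ} (hf0 : ∀ j, 0 ≤ f j)
    (hf : Summable fun j : ℕ => (j + 1 : ℝ) * f j) :
    Summable fun x : ℕ × ℕ => f (x.1 + x.2) := by
  refine (Equiv.summable_iff (Finset.HasAntidiagonal.sigmaAntidiagonalEquivProd (A := ℕ))).1 ?_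
  have : (fun x : ℕ × ℕ => f (x.1 + x.2)) ∘ Finset.HasAntidiagonal.sigmaAntidiagonalEquivProd
      = fun x : (Σ n : ℕ, (Finset.HasAntidiagonal.antidiagonal n : Finset (ℕ × ℕ))) => f x.1 := by
    funext x
    obtain ⟨n, ⟨a, b⟩, h⟩ := x
    simp only [Function.comp, Finset.HasAntidiagonal.sigmaAntidiagonalEquivProd_apply]
    rw [Finset.HasAntidiagonal.mem_antidiagonal] at h
    rw [← h]
  rw [this]
  rw [summable_sigma_of_nonneg (fun x => hf0 _)]
  constructor
  · intro n
    exact Summable.of_finite
  · refine hf.congr (fun n => ?_)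
    rw [tsum_fintype]
    simp

lemma summable_half {f : ℕ → ℝ} (hf0 : ∀ j, 0 ≤ f j)
    (hf : Summable fun j : ℕ => (j + 1 : ℝ) * f j) :
    Summable fun x : ℕ × ℕ => f (x.1 / 2 + x.2) := by
  have h1 := summable_prod_add hf0 hf
  have hA : Summable fun x : (ℕ × ℕ) × Fin 2 => f (x.1.1 + x.1.2) := by
    rw [summable_prod_of_nonneg (fun x => hf0 _)]
    constructor
    · intro x
      exact Summable.of_finite
    · refine (h1.mul_left 2).congr (fun x => ?_)
      rw [tsum_fintype]
      simp
  have hinj : Function.Injective (fun x : ℕ × ℕ => (((x.1 / 2, x.2), (Fin.ofNat 2 x.1)) : (ℕ × ℕ) × Fin 2)) := by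
    rintro ⟨a, b⟩ ⟨c, d⟩ h
    simp only [Prod.mk.injEq, Fin.ext_iff, Fin.ofNat] at h
    obtain ⟨⟨h1, h2⟩, h3⟩ := h
    have : a = c := by omega
    rw [this, h2]
  exact hA.comp_injective hinj

lemma summable_half' {f : ℕ → ℝ} (hf0 : ∀ j, 0 ≤ f j)
    (hf : Summable fun j : ℕ => (j + 1 : ℝ) * f j) : Summable fun k : ℕ => f (k / 2) := by
  have h := summable_half hf0 hf
  have hinj : Function.Injective (fun k : ℕ => ((k, 0) : ℕ × ℕ)) := by
    intro a b h
    simpa using h
  refine (h.comp_injective hinj).congr (fun k => ?_)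
  simp

/-- the recursion for the error terms -/
lemma summable_rec {q : ℕ → ℝ} (hq : ∀ k, 0 < q k) (hq1 : ∀ k, q k ≤ q (k + 1))
    (hq2 : ∀ k, 2 * q k ≤ q (k + 2)) {g : ℕ → ℝ} (hg0 : ∀ k, 0 ≤ g k) (hg : Summable g)
    {d : ℕ → ℝ} (hd0 : d 0 = 0) (hd : ∀ k, d (k + 1) = d k + 3 * (q (k + 1) * g k)) :
    Summable fun k => d k / q k := by
  have hdn : ∀ k, 0 ≤ d k := by
    intro k
    induction k with
    | zero => rw [hd0]
    | succ k ih =>
      rw [hd]
      have := mul_nonneg (hq (k + 1)).le (hg0 k)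
      linarith
  have hen : ∀ k, 0 ≤ d k / q k := fun k => div_nonneg (hdn k) (hq k).le
  have hstep : ∀ k, d (k + 2) / q (k + 2) ≤ (1 / 2) * (d k / q k) + 3 * g k + 3 * g (k + 1) := by
    intro k
    rw [div_le_iff₀ (hq _)]
    rw [hd (k + 1), hd k]
    have h1 : d k ≤ (1 / 2) * (d k / q k) * q (k + 2) := by
      have h3 : d k = (1 / 2) * (d k / q k) * (2 * q k) := by
        have := (hq k).ne'
        field_simp
      calc d k = (1 / 2) * (d k / q k) * (2 * q k) := h3
        _ ≤ (1 / 2) * (d k / q k) * q (k + 2) :=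
          mul_le_mul_of_nonneg_left (hq2 k) (by have := hen k; positivity)
    have h2 : q (k + 1) * g k ≤ g k * q (k + 2) := by
      rw [mul_comm]
      exact mul_le_mul_of_nonneg_left (hq1 (k + 1)) (hg0 k)
    have e : k + 1 + 1 = k + 2 := rfl
    rw [e]
    nlinarith
  obtain ⟨B, hB⟩ : ∃ B, ∀ K, ∑ k ∈ Finset.range K, g k ≤ B :=
    ⟨∑' k, g k, fun K => hg.sum_le_tsum _ (fun i _ => hg0 i)⟩
  have hB1 : ∀ K, ∑ k ∈ Finset.range K, g (k + 1) ≤ B := by
    intro K
    have h1 := hB (K + 1)
    rw [Finset.sum_range_succ'] at h1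
    linarith [hg0 0]
  refine summable_of_sum_range_le (c := 2 * (d 0 / q 0 + d 1 / q 1 + 6 * B)) hen ?_
  intro K
  have hmono : ∑ k ∈ Finset.range K, d k / q k ≤ ∑ k ∈ Finset.range (K + 2), d k / q k :=
    Finset.sum_le_sum_of_subset_of_nonneg (Finset.range_mono (by omega)) (fun i _ _ => hen i)
  have hsplit : ∑ k ∈ Finset.range (K + 2), d k / q k
      = (∑ k ∈ Finset.range K, d (k + 2) / q (k + 2)) + d 1 / q 1 + d 0 / q 0 := by
    rw [Finset.sum_range_succ', Finset.sum_range_succ']
  have hbd : ∑ k ∈ Finset.range K, d (k + 2) / q (k + 2)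
      ≤ (1 / 2) * (∑ k ∈ Finset.range K, d k / q k) + 6 * B := by
    calc ∑ k ∈ Finset.range K, d (k + 2) / q (k + 2)
        ≤ ∑ k ∈ Finset.range K, ((1 / 2) * (d k / q k) + 3 * g k + 3 * g (k + 1)) :=
          Finset.sum_le_sum fun k _ => hstep k
      _ = (1 / 2) * (∑ k ∈ Finset.range K, d k / q k) + 3 * (∑ k ∈ Finset.range K, g k)
          + 3 * (∑ k ∈ Finset.range K, g (k + 1)) := by
          rw [Finset.sum_add_distrib, Finset.sum_add_distrib, Finset.mul_sum, Finset.mul_sum,
            Finset.mul_sum]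
      _ ≤ _ := by
          have := hB K
          have := hB1 K
          linarith
  linarith

/-- sum over the levels -/
lemma summable_levels {q : ℕ → ℕ} (hq : ∀ k, 0 < q k) {d : ℕ → ℝ} (hdn : ∀ k, 0 ≤ d k)
    (hd : Summable fun k => d k / q k) (κ : ℕ → ℕ) (hκ : ∀ i, q (κ i) ≤ 2 ^ i) :
    Summable fun i : ℕ => d (κ i) / 2 ^ i := by
  have key : Summable fun x : ℕ × ℕ => if q x.1 ≤ 2 ^ x.2 then d x.1 / (2 : ℝ) ^ x.2 else 0 := by
    rw [summable_prod_of_nonneg]
    · have hin : ∀ k : ℕ, Summable fun i : ℕ => if q k ≤ 2 ^ i then d k / (2 : ℝ) ^ i else 0 := by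
        intro k
        refine Summable.of_nonneg_of_le (f := fun i => d k * (1 / 2 : ℝ) ^ i) ?_ ?_ ?_
        · intro i
          split_ifs
          · exact div_nonneg (hdn k) (by positivity)
          · exact le_rfl
        · intro i
          split_ifs
          · rw [one_div, inv_pow, div_eq_mul_inv]
          · have := hdn k
            positivity
        · exact (summable_geometric_two).mul_left _
      constructor
      · intro k
        exact hin k
      · refine Summable.of_nonneg_of_le (f := fun k => 2 * (d k / q k)) ?_ ?_ (hd.mul_left 2)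
        · intro k
          refine tsum_nonneg (fun i => ?_)
          split_ifs
          · exact div_nonneg (hdn k) (by positivity)
          · exact le_rfl
        · intro k
          -- first index with q k ≤ 2^i
          have hex : ∃ i : ℕ, q k ≤ 2 ^ i := ⟨q k, Nat.lt_two_pow_self.le⟩
          set i0 := Nat.find hex with hi0
          have h1 : q k ≤ 2 ^ i0 := Nat.find_spec hex
          have h2 : ∀ i, i < i0 → ¬ q k ≤ 2 ^ i := fun i hi => Nat.find_min hex hi
          have hsum : ∑' i : ℕ, (if q k ≤ 2 ^ i then d k / (2 : ℝ) ^ i else 0)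
              ≤ ∑' i : ℕ, (d k / 2 ^ i0) * (1 / 2 : ℝ) ^ i := by
            rw [← (hin k).sum_add_tsum_nat_add i0]
            have hz : ∑ i ∈ Finset.range i0, (if q k ≤ 2 ^ i then d k / (2 : ℝ) ^ i else 0) = 0 := by
              refine Finset.sum_eq_zero (fun i hi => ?_)
              rw [Finset.mem_range] at hi
              rw [if_neg (h2 i hi)]
            rw [hz, zero_add]
            refine Summable.tsum_le_tsum ?_ ((summable_nat_add_iff i0).2 (hin k))
              ((summable_geometric_two).mul_left _)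
            intro i
            split_ifs
            · rw [pow_add, one_div, inv_pow]
              apply le_of_eq
              field_simp
            · have := hdn k
              positivity
          refine hsum.trans ?_
          rw [tsum_mul_left, tsum_geometric_two]
          have hqr : (0 : ℝ) < q k := by exact_mod_cast hq k
          have h1r : (q k : ℝ) ≤ 2 ^ i0 := by exact_mod_cast h1
          have : d k / 2 ^ i0 ≤ d k / q k := div_le_div_of_nonneg_left (hdn k) hqr h1r
          linarith
    · intro x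
      simp only [Pi.zero_apply]
      split_ifs
      · exact div_nonneg (hdn _) (by positivity)
      · exact le_rfl
  have hinj : Function.Injective (fun i : ℕ => ((κ i, i) : ℕ × ℕ)) := by
    intro a b h
    simp only [Prod.mk.injEq] at h
    exact h.2
  refine (key.comp_injective hinj).congr (fun i => ?_)
  simp [hκ i]

theorem modR (hCF : ModCF) (hR1 : ModR1) (hR1' : ModR1') (hR2 : ModR2) : ModR := by
  intro φ hφm hφ ω hω hmod α hα
  obtain ⟨p, q, hq0, hqpos, hcop, hqmono, hq2, happ, hdiff⟩ := hCF α hα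
  have hω0 : ∀ j, 0 ≤ ω j := by
    intro j
    refine le_trans ?_ (hmod j 0 (by simp))
    exact integral_nonneg fun t => abs_nonneg _
  -- powers of two below the denominators
  have hqtwo : ∀ k, 2 ^ (k / 2) ≤ q k := by
    intro k
    induction k using Nat.strong_induction_on with
    | _ k ih =>
      rcases k with _ | _ | k
      · simp [hq0]
      · have := hqpos 1
        simpa using Nat.succ_le_of_lt this
      · have h1 := ih k (by omega)
        have h2 := hq2 k
        have h3 : (k + 1 + 1) / 2 = k / 2 + 1 := by omega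
        rw [h3, pow_succ]
        have : k + 1 + 1 = k + 2 := rfl
        rw [this]
        omega
  have hqr : ∀ k, (0 : ℝ) < q k := fun k => by exact_mod_cast hqpos k
  have hinvq : ∀ k, 1 / (q k : ℝ) ≤ 1 / 2 ^ (k / 2) := by
    intro k
    refine one_div_le_one_div_of_le (by positivity) ?_
    exact_mod_cast hqtwo k
  set ρ : ℕ → UnitAddCircle := fun k => (((p k : ℝ) / q k : ℝ) : UnitAddCircle) with hρ
  have hρ0 : ∀ k, q k • ρ k = 0 := by
    intro k
    change q k • (((p k : ℝ) / q k : ℝ) : UnitAddCircle) = 0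
    rw [← AddCircle.coe_nsmul, nsmul_eq_mul, mul_div_cancel₀ _ (hqr k).ne']
    have : ((p k : ℝ) : UnitAddCircle) = ((p k : ℤ) • (1 : ℝ) : ℝ) := by simp
    rw [this, AddCircle.coe_zsmul, show ((1 : ℝ) : UnitAddCircle) = 0 from AddCircle.coe_period 1,
      smul_zero]
  set c : ℝ := ∫ s, φ s with hc
  -- the error terms
  let D : UnitAddCircle → ℕ → ℝ := fun t k => Nat.rec 0
    (fun k Dk => Dk + (∑ j ∈ Finset.range (q (k + 1)), |φ (t + j • ρ (k + 1)) - φ (t + j • ρ k)|)
      + q (k + 1) * |avgq φ (q k) (ρ k) t - c|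
      + q (k + 1) * |avgq φ (q (k + 1)) (ρ (k + 1)) t - c|) k
  have hD0 : ∀ t, D t 0 = 0 := fun t => rfl
  have hDs : ∀ t k, D t (k + 1) = D t k
      + (∑ j ∈ Finset.range (q (k + 1)), |φ (t + j • ρ (k + 1)) - φ (t + j • ρ k)|)
      + q (k + 1) * |avgq φ (q k) (ρ k) t - c|
      + q (k + 1) * |avgq φ (q (k + 1)) (ρ (k + 1)) t - c| := fun t k => rfl
  -- integrability
  have htr : ∀ a : UnitAddCircle, Integrable (fun t => φ (t + a)) volume := fun a =>
    hφ.comp_add_right a
  have hab : ∀ a b : UnitAddCircle, Integrable (fun t => |φ (t + a) - φ (t + b)|) volume :=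
    fun a b => ((htr a).sub (htr b)).abs
  have havg : ∀ k, Integrable (fun t => avgq φ (q k) (ρ k) t) volume := by
    intro k
    simp only [avgq]
    exact (integrable_finsetSum _ (fun j _ => htr _)).div_const _
  have havgc : ∀ k, Integrable (fun t => |avgq φ (q k) (ρ k) t - c|) volume :=
    fun k => ((havg k).sub (integrable_const c)).abs
  have hDint : ∀ k, Integrable (fun t => D t k) volume := by
    intro k
    induction k with
    | zero => simp only [hD0]; exact integrable_zero _ _ _
    | succ k ih =>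
      simp only [hDs]
      exact ((ih.add (integrable_finsetSum _ (fun j _ => hab _ _))).add
        ((havgc k).const_mul _)).add ((havgc (k + 1)).const_mul _)
  have hDnn : ∀ t k, 0 ≤ D t k := by
    intro t k
    induction k with
    | zero => rw [hD0]
    | succ k ih =>
      rw [hDs]
      have := hqr (k + 1)
      have h1 : 0 ≤ ∑ j ∈ Finset.range (q (k + 1)), |φ (t + j • ρ (k + 1)) - φ (t + j • ρ k)| :=
        Finset.sum_nonneg fun j _ => abs_nonneg _
      positivity
  -- bound for the integral of a difference of translates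
  have hdiffint : ∀ (j : ℕ) (x y : ℝ) (l : ℕ), |(j : ℝ) * (x - y)| ≤ 1 / 2 ^ l →
      ∫ t : UnitAddCircle, |φ (t + j • (x : UnitAddCircle)) - φ (t + j • (y : UnitAddCircle))| ≤ ω l := by
    intro j x y l h
    have h1 := hmod l ((j : ℝ) * (x - y)) h
    have h2 := integral_add_right_eq_self (μ := (volume : Measure UnitAddCircle))
      (fun t => |φ (t + (((j : ℝ) * (x - y) : ℝ) : UnitAddCircle)) - φ t|)
      (j • (y : UnitAddCircle))
    rw [← h2] at h1
    refine le_of_eq_of_le ?_ h1
    refine integral_congr_ae (Eventually.of_forall fun t => ?_)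
    simp only
    congr 3
    have : (((j : ℝ) * (x - y) : ℝ) : UnitAddCircle)
        = j • (x : UnitAddCircle) - j • (y : UnitAddCircle) := by
      rw [← nsmul_eq_mul, AddCircle.coe_nsmul, AddCircle.coe_sub, nsmul_sub]
    rw [this]
    abel
  have hdiffint' : ∀ (j : ℕ) (x y : ℝ) (l : ℕ), |(j : ℝ) * (x - y)| ≤ 1 / 2 ^ l →
      ∫ t : UnitAddCircle, |φ (t - j • (x : UnitAddCircle)) - φ (t - j • (y : UnitAddCircle))| ≤ ω l := by
    intro j x y l h
    have h0 : |(j : ℝ) * ((-x) - (-y))| ≤ 1 / 2 ^ l := by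
      rw [show (j : ℝ) * ((-x) - (-y)) = -((j : ℝ) * (x - y)) by ring, abs_neg]
      exact h
    have h1 := hdiffint j (-x) (-y) l h0
    simpa only [AddCircle.coe_neg, smul_neg, ← sub_eq_add_neg] using h1
  -- the numbers d k
  let d : ℕ → ℝ := fun k => Nat.rec 0 (fun k dk => dk + 3 * ((q (k + 1) : ℝ) * ω (k / 2))) k
  have hd0 : d 0 = 0 := rfl
  have hds : ∀ k, d (k + 1) = d k + 3 * ((q (k + 1) : ℝ) * ω (k / 2)) := fun k => rfl
  have hdnn : ∀ k, 0 ≤ d k := by
    intro k
    induction k with
    | zero => rw [hd0]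
    | succ k ih =>
      rw [hds]
      have := hqr (k + 1)
      have := hω0 (k / 2)
      positivity
  have havgint : ∀ k l : ℕ, 1 / (q k : ℝ) ≤ 1 / 2 ^ l →
      ∫ t, |avgq φ (q k) (ρ k) t - c| ≤ ω l := by
    intro k l hl
    refine hR2 φ hφ (p k) (q k) (hqpos k) (hcop k) (ω l) ?_
    intro u hu0 hu
    refine hmod l u ?_
    rw [abs_of_nonneg hu0]
    exact hu.trans hl
  have hDd : ∀ k, ∫ t, D t k ≤ d k := by
    intro k
    induction k with
    | zero => simp only [hD0, hd0]; simp
    | succ k ih =>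
      simp only [hDs]
      rw [integral_add, integral_add, integral_add, integral_const_mul, integral_const_mul,
        integral_finsetSum]
      · have h1 : ∑ j ∈ Finset.range (q (k + 1)),
            ∫ t, |φ (t + j • ρ (k + 1)) - φ (t + j • ρ k)| ≤ (q (k + 1) : ℝ) * ω (k / 2) := by
          calc _ ≤ ∑ j ∈ Finset.range (q (k + 1)), ω (k / 2) := by
                refine Finset.sum_le_sum fun j hj => ?_
                refine hdiffint j _ _ (k / 2) ?_
                rw [Finset.mem_range] at hj
                have hjr : (j : ℝ) ≤ q (k + 1) := by exact_mod_cast hj.le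
                rw [abs_mul, Nat.abs_cast]
                calc (j : ℝ) * |(p (k + 1) : ℝ) / q (k + 1) - (p k : ℝ) / q k|
                    ≤ q (k + 1) * (1 / ((q k : ℝ) * q (k + 1))) :=
                      mul_le_mul hjr (hdiff k) (abs_nonneg _) (hqr _).le
                  _ = 1 / (q k : ℝ) := by
                      have := (hqr k).ne'
                      have := (hqr (k + 1)).ne'
                      field_simp
                  _ ≤ 1 / 2 ^ (k / 2) := hinvq k
            _ = (q (k + 1) : ℝ) * ω (k / 2) := by simp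
        have h2 := havgint k (k / 2) (hinvq k)
        have h3 := havgint (k + 1) (k / 2)
          (le_trans (one_div_le_one_div_of_le (hqr k) (by exact_mod_cast hqmono k)) (hinvq k))
        have h4 := mul_le_mul_of_nonneg_left h2 (hqr (k + 1)).le
        have h5 := mul_le_mul_of_nonneg_left h3 (hqr (k + 1)).le
        rw [hds]
        linarith
      · intro j _
        exact hab _ _
      · exact hDint k
      · exact integrable_finsetSum _ (fun j _ => hab _ _)
      · exact (hDint k).add (integrable_finsetSum _ (fun j _ => hab _ _))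
      · exact (havgc k).const_mul _
      · exact ((hDint k).add (integrable_finsetSum _ (fun j _ => hab _ _))).add
          ((havgc k).const_mul _)
      · exact (havgc (k + 1)).const_mul _
  have hdsum : Summable fun k => d k / (q k : ℝ) := by
    refine summable_rec (q := fun k => (q k : ℝ)) hqr (fun k => by exact_mod_cast hqmono k)
      (fun k => by exact_mod_cast hq2 k) (g := fun k => ω (k / 2)) (fun k => hω0 _)
      (summable_half' hω0 hω) hd0 hds
  -- the level of i
  have hex : ∀ i : ℕ, ∃ k, 2 ^ i < q (k + 1) := by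
    intro i
    refine ⟨2 * (i + 1), ?_⟩
    have h1 := hqtwo (2 * (i + 1) + 1)
    have h2 : (2 * (i + 1) + 1) / 2 = i + 1 := by omega
    rw [h2] at h1
    exact lt_of_lt_of_le (Nat.pow_lt_pow_right (by norm_num) (by omega)) h1
  let κ : ℕ → ℕ := fun i => Nat.find (hex i)
  have hκ1 : ∀ i, 2 ^ i < q (κ i + 1) := fun i => Nat.find_spec (hex i)
  have hκ2 : ∀ i, q (κ i) ≤ 2 ^ i := by
    intro i
    rcases Nat.eq_zero_or_pos (κ i) with h | h
    · rw [h, hq0]
      exact Nat.one_le_two_pow
    · have h1 := Nat.find_min (hex i) (m := κ i - 1) (by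
        have : κ i = Nat.find (hex i) := rfl
        omega)
      have h2 : κ i - 1 + 1 = κ i := by omega
      rw [h2] at h1
      exact not_lt.1 h1
  -- I k: largest power of two below q (k+1)
  let I : ℕ → ℕ := fun k => Nat.log 2 (q (k + 1) - 1)
  have hI1 : ∀ i, i ≤ I (κ i) := by
    intro i
    refine Nat.le_log_of_pow_le (by norm_num) ?_
    have := hκ1 i
    omega
  have hI2 : ∀ i, 2 ^ I (κ i) ≤ q (κ i + 1) := by
    intro i
    have h1 : q (κ i + 1) - 1 ≠ 0 := by
      have := hκ1 i
      have := Nat.one_le_two_pow (n := i)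
      omega
    have h2 := Nat.pow_log_le_self 2 h1
    exact h2.trans (Nat.sub_le _ _)
  let L : ℕ → ℕ := fun i => κ i / 2 + (I (κ i) - i)
  have hL : ∀ i, (2 : ℝ) ^ i * |α - (p (κ i) : ℝ) / q (κ i)| ≤ 1 / 2 ^ (L i) := by
    intro i
    have h1 := happ (κ i)
    have h2 : (2 : ℝ) ^ I (κ i) ≤ q (κ i + 1) := by exact_mod_cast hI2 i
    have h3 : (2 : ℝ) ^ (κ i / 2) ≤ q (κ i) := by exact_mod_cast hqtwo (κ i)
    have h4 : (2 : ℝ) ^ I (κ i) = 2 ^ i * 2 ^ (I (κ i) - i) := by
      rw [← pow_add]
      congr 1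
      have := hI1 i
      omega
    calc (2 : ℝ) ^ i * |α - (p (κ i) : ℝ) / q (κ i)|
        ≤ 2 ^ i * (1 / ((q (κ i) : ℝ) * q (κ i + 1))) :=
          mul_le_mul_of_nonneg_left h1 (by positivity)
      _ ≤ 2 ^ i * (1 / ((2 : ℝ) ^ (κ i / 2) * 2 ^ I (κ i))) := by
          refine mul_le_mul_of_nonneg_left ?_ (by positivity)
          refine one_div_le_one_div_of_le (by positivity) ?_
          exact mul_le_mul h3 h2 (by positivity) (hqr _).le
      _ = 1 / 2 ^ (L i) := by
          simp only [L]
          rw [h4, pow_add]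
          field_simp
  -- the functions s and r
  let r : UnitAddCircle → ℕ → ℝ := fun t i =>
    (∑ j ∈ Finset.range (2 ^ i), |φ (t + j • (α : UnitAddCircle)) - φ (t + j • ρ (κ i))|)
    + (∑ j ∈ Finset.range (2 ^ i),
        |φ (t - (j + 1) • (α : UnitAddCircle)) - φ (t - (j + 1) • ρ (κ i))|)
    + D t (κ i)
  have hrnn : ∀ t i, 0 ≤ r t i := by
    intro t i
    have h1 : 0 ≤ ∑ j ∈ Finset.range (2 ^ i),
        |φ (t + j • (α : UnitAddCircle)) - φ (t + j • ρ (κ i))| :=
      Finset.sum_nonneg fun j _ => abs_nonneg _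
    have h2 : 0 ≤ ∑ j ∈ Finset.range (2 ^ i),
        |φ (t - (j + 1) • (α : UnitAddCircle)) - φ (t - (j + 1) • ρ (κ i))| :=
      Finset.sum_nonneg fun j _ => abs_nonneg _
    have h3 := hDnn t (κ i)
    exact add_nonneg (add_nonneg h1 h2) h3
  have hab' : ∀ a b : UnitAddCircle, Integrable (fun t => |φ (t - a) - φ (t - b)|) volume := by
    intro a b
    simpa only [sub_eq_add_neg] using hab (-a) (-b)
  have hrint : ∀ i, Integrable (fun t => r t i) volume := by
    intro i
    exact ((integrable_finsetSum _ (fun j _ => hab _ _)).add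
      (integrable_finsetSum _ (fun j _ => hab' _ _))).add (hDint _)
  have hrle : ∀ i, ∫ t, r t i ≤ 2 ^ i * (2 * ω (L i)) + d (κ i) := by
    intro i
    have e1 : ∫ t, r t i = (∑ j ∈ Finset.range (2 ^ i),
        ∫ t, |φ (t + j • (α : UnitAddCircle)) - φ (t + j • ρ (κ i))|)
        + (∑ j ∈ Finset.range (2 ^ i),
        ∫ t, |φ (t - (j + 1) • (α : UnitAddCircle)) - φ (t - (j + 1) • ρ (κ i))|)
        + ∫ t, D t (κ i) := by
      simp only [r]
      rw [integral_add, integral_add, integral_finsetSum, integral_finsetSum]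
      · intro j _; exact hab' _ _
      · intro j _; exact hab _ _
      · exact integrable_finsetSum _ (fun j _ => hab _ _)
      · exact integrable_finsetSum _ (fun j _ => hab' _ _)
      · exact (integrable_finsetSum _ (fun j _ => hab _ _)).add
          (integrable_finsetSum _ (fun j _ => hab' _ _))
      · exact hDint _
    rw [e1]
    have hsm : ∀ j : ℕ, (j : ℝ) ≤ 2 ^ i → |(j : ℝ) * (α - (p (κ i) : ℝ) / q (κ i))| ≤ 1 / 2 ^ (L i) := by
      intro j hj
      rw [abs_mul, Nat.abs_cast]
      exact (mul_le_mul_of_nonneg_right hj (abs_nonneg _)).trans (hL i)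
    have h1 : (∑ j ∈ Finset.range (2 ^ i),
        ∫ t, |φ (t + j • (α : UnitAddCircle)) - φ (t + j • ρ (κ i))|) ≤ 2 ^ i * ω (L i) := by
      calc _ ≤ ∑ j ∈ Finset.range (2 ^ i), ω (L i) := by
            refine Finset.sum_le_sum fun j hj => ?_
            rw [Finset.mem_range] at hj
            exact hdiffint j _ _ (L i) (hsm j (by exact_mod_cast hj.le))
        _ = 2 ^ i * ω (L i) := by simp
    have h2 : (∑ j ∈ Finset.range (2 ^ i),
        ∫ t, |φ (t - (j + 1) • (α : UnitAddCircle)) - φ (t - (j + 1) • ρ (κ i))|)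
        ≤ 2 ^ i * ω (L i) := by
      calc _ ≤ ∑ j ∈ Finset.range (2 ^ i), ω (L i) := by
            refine Finset.sum_le_sum fun j hj => ?_
            rw [Finset.mem_range] at hj
            exact hdiffint' (j + 1) _ _ (L i) (hsm (j + 1) (by exact_mod_cast hj))
        _ = 2 ^ i * ω (L i) := by simp
    have h3 := hDd (κ i)
    linarith
  -- summability of the integrals
  have hLsum : Summable fun i => ω (L i) := by
    have h1 := summable_half hω0 hω
    have hinj : Function.Injective (fun i : ℕ => ((κ i, I (κ i) - i) : ℕ × ℕ)) := by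
      intro a b h
      simp only [Prod.mk.injEq] at h
      obtain ⟨h1, h2⟩ := h
      have h3 := hI1 a
      have h4 := hI1 b
      rw [h1] at h2 h3
      omega
    exact h1.comp_injective hinj
  have hdlev : Summable fun i : ℕ => d (κ i) / 2 ^ i :=
    summable_levels hqpos hdnn hdsum κ hκ2
  have hsumint : Summable fun i => ∫ t, r t i / 2 ^ i := by
    refine Summable.of_nonneg_of_le (f := fun i => 2 * ω (L i) + d (κ i) / 2 ^ i) ?_ ?_
      ((hLsum.mul_left 2).add hdlev)
    · intro i
      exact integral_nonneg fun t => div_nonneg (hrnn t i) (by positivity)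
    · intro i
      rw [integral_div]
      rw [div_le_iff₀ (by positivity)]
      have h1 := hrle i
      have h2 : (2 * ω (L i) + d (κ i) / 2 ^ i) * 2 ^ i = 2 ^ i * (2 * ω (L i)) + d (κ i) := by
        field_simp
      rw [h2]
      exact h1
  -- almost everywhere summable
  have hae : ∀ᵐ t : UnitAddCircle, Summable fun i => r t i / 2 ^ i := by
    have hfin : ∑' i, ∫⁻ t, ENNReal.ofReal (r t i / 2 ^ i) < ∞ := by
      have : ∀ i, ∫⁻ t, ENNReal.ofReal (r t i / 2 ^ i) = ENNReal.ofReal (∫ t, r t i / 2 ^ i) := by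
        intro i
        rw [ofReal_integral_eq_lintegral_ofReal ((hrint i).div_const _)]
        exact Eventually.of_forall fun t => div_nonneg (hrnn t i) (by positivity)
      simp_rw [this]
      rw [← ENNReal.ofReal_tsum_of_nonneg _ hsumint]
      · exact ENNReal.ofReal_lt_top
      · intro i
        exact integral_nonneg fun t => div_nonneg (hrnn t i) (by positivity)
    have hmeas : ∀ i, AEMeasurable (fun t => ENNReal.ofReal (r t i / 2 ^ i)) volume := by
      intro i
      exact ((hrint i).div_const _).aestronglyMeasurable.aemeasurable.ennreal_ofReal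
    rw [← lintegral_tsum hmeas] at hfin
    have h1 := ae_lt_top' (AEMeasurable.ennreal_tsum hmeas) hfin.ne
    filter_upwards [h1] with t ht
    have h2 : Summable fun i => (ENNReal.ofReal (r t i / 2 ^ i)).toReal :=
      ENNReal.summable_toReal ht.ne
    refine h2.congr fun i => ?_
    rw [ENNReal.toReal_ofReal (div_nonneg (hrnn t i) (by positivity))]
  filter_upwards [hae] with t ht
  refine ⟨fun i => avgq φ (q (κ i)) (ρ (κ i)) t, fun i => r t i, ht, ?_⟩
  intro i n hn
  have hn' : |n| ≤ ((2 ^ i : ℕ) : ℤ) := by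
    have : ((|n| : ℤ) : ℝ) ≤ (2 : ℝ) ^ i := by rw [Int.cast_abs]; exact hn
    exact_mod_cast this
  have h1 := hR1' φ (α : UnitAddCircle) (ρ (κ i)) t (2 ^ i) n hn'
  have h2 := hR1 φ c q ρ t (D t) hq0 hqpos hρ0 (hD0 t) (hDs t) (κ i) n
  have h3 : bsum φ (rot (α : UnitAddCircle)) n t - n * avgq φ (q (κ i)) (ρ (κ i)) t
      = (bsum φ (rot (α : UnitAddCircle)) n t - bsum φ (rot (ρ (κ i))) n t)
        + (bsum φ (rot (ρ (κ i))) n t - n * avgq φ (q (κ i)) (ρ (κ i)) t) := by ring
  rw [h3]
  refine (abs_add_le _ _).trans ?_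
  exact add_le_add h1 h2

end Pool.Agent.Bishop
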