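import Pool.Agent.Lib_helper15.Bishop.ModG
import Pool.Agent.Lib_helper15.Bishop.ModCF
import Pool.Agent.Lib_helper15.Bishop.ModR
import Pool.Agent.Lib_helper84.Bishop.ModR1

/-!
# Rotations of the circle: assembly
-/

set_option autoImplicit false

universe u

namespace Pool.Agent.Bishop

open MeasureTheory Set Filter
open scoped ENNReal NNReal Topology

/-- From an abstract cocycle to the Birkhoff sums. -/
lemma tameB_of_cocycle (hK : ModK.{u}) {X : Type u} (φ : X → ℝ) (τ : Equiv.Perm X) (t : X)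
    (S : ℤ → ℝ) (s r : ℕ → ℝ) (hS0 : S 0 = 0) (hS : ∀ n : ℤ, S (n + 1) = S n + φ ((τ ^ n) t))
    (hr : Summable fun i => r i / 2 ^ i)
    (hb : ∀ (i : ℕ) (n : ℤ), |(n : ℝ)| ≤ 2 ^ i → |S n - n * s i| ≤ r i) : TameB φ τ t := by
  obtain ⟨h0, h1, -⟩ := hK τ
  have key : ∀ n : ℤ, S n = bsum φ τ n t := by
    intro n
    induction n using Int.induction_on with
    | zero => rw [hS0, h0]
    | succ n ih => rw [hS, h1, ih]
    | pred n ih =>
      have e1 := hS (-(n : ℤ) - 1)
      have e2 := h1 φ (-(n : ℤ) - 1) t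
      have e3 : -(n : ℤ) - 1 + 1 = -(n : ℤ) := by ring
      rw [e3] at e1 e2
      linarith
  refine ⟨s, r, hr, fun i n hn => ?_⟩
  rw [← key n]
  exact hb i n hn

lemma rot_zpow_apply (a : UnitAddCircle) (n : ℤ) (t : UnitAddCircle) :
    (rot a ^ n) t = t + n • a := by
  rw [rot_zpow]

lemma zsmul_irrational_ne_zero {α : ℝ} (hα : Irrational α) {n : ℤ} (hn : n ≠ 0) :
    n • (α : UnitAddCircle) ≠ 0 := by
  intro h
  rw [← AddCircle.coe_zsmul, AddCircle.coe_eq_zero_iff] at h
  obtain ⟨m, hm⟩ := h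
  have h1 : (m : ℝ) = n * α := by simpa [zsmul_eq_mul] using hm
  have hn' : (n : ℝ) ≠ 0 := by exact_mod_cast hn
  refine hα ⟨(m : ℚ) / n, ?_⟩
  push_cast
  rw [h1]
  field_simp

lemma ae_comp_mp {X : Type*} [MeasurableSpace X] {μ : Measure X} {f : X → X}
    (hf : MeasurePreserving f μ μ) {P : X → Prop} (h : ∀ᵐ t ∂μ, P t) : ∀ᵐ t ∂μ, P (f t) :=
  hf.quasiMeasurePreserving.ae h

/-- Irrational rotations. -/
theorem circle_main (hG : ModG.{0}) (hR : ModR) (w : UnitAddCircle → ℂ) (hw : Measurable w)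
    (hwb : ∃ C : ℝ, ∀ t, ‖w t‖ ≤ C) (hw0 : ∀ᵐ t : UnitAddCircle, w t ≠ 0)
    (hwi : Integrable (fun t => Real.log ‖w t‖) (volume : Measure UnitAddCircle)) (ω : ℕ → ℝ)
    (hω : Summable fun j : ℕ => (j + 1 : ℝ) * ω j)
    (hmod : ∀ (j : ℕ) (u : ℝ), |u| ≤ 1 / 2 ^ j →
      ∫ t : UnitAddCircle, |Real.log ‖w (t + (u : UnitAddCircle))‖ - Real.log ‖w t‖| ≤ ω j)
    (α : ℝ) (hα : Irrational α) (p : ℝ≥0∞) [Fact (1 ≤ p)]
    (T : Lp ℂ p (volume : Measure UnitAddCircle) →L[ℂ] Lp ℂ p (volume : Measure UnitAddCircle))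
    (hT : ∀ f, (T f : UnitAddCircle → ℂ) =ᵐ[volume]
      fun t => w t * (f : UnitAddCircle → ℂ) (t + (α : UnitAddCircle))) : HasHyper T := by
  have hmp : ∀ a : UnitAddCircle, MeasurePreserving (rot a) (volume : Measure UnitAddCircle) volume :=
    fun a => measurePreserving_add_right volume a
  have hsymm : ∀ a : UnitAddCircle, Measurable (rot a).symm := by
    intro a
    have : ⇑(rot a).symm = fun t => t + (-a) := by
      funext t
      simp [rot]
    rw [this]
    exact measurable_add_const (-a)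
  have hpowmp : ∀ n : ℤ, MeasurePreserving (fun t => (rot (α : UnitAddCircle) ^ n) t)
      (volume : Measure UnitAddCircle) volume := by
    intro n
    have : (fun t => (rot (α : UnitAddCircle) ^ n) t) = fun t => t + n • (α : UnitAddCircle) := by
      funext t
      exact rot_zpow_apply _ n t
    rw [this]
    exact measurePreserving_add_right volume _
  set φ : UnitAddCircle → ℝ := fun t => Real.log ‖w t‖ with hφ
  have hφm : Measurable φ := Real.measurable_log.comp hw.norm
  have htame := hR φ hφm hwi ω hω hmod α hα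
  have hnz : ∀ᵐ t : UnitAddCircle, ∀ n : ℤ, w ((rot (α : UnitAddCircle) ^ n) t) ≠ 0 := by
    rw [ae_all_iff]
    intro n
    exact ae_comp_mp (hpowmp n) (P := fun t => w t ≠ 0) hw0
  set G : Set UnitAddCircle := {t | (∀ n : ℤ, w ((rot (α : UnitAddCircle) ^ n) t) ≠ 0) ∧
    TameB φ (rot (α : UnitAddCircle)) t} with hGdef
  have hGae : ∀ᵐ t : UnitAddCircle, t ∈ G := by
    filter_upwards [hnz, htame] with t h1 h2
    exact ⟨h1, h2⟩
  have hG0 : (volume : Measure UnitAddCircle) G ≠ 0 := by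
    intro h0
    have h1 : ∀ᵐ t : UnitAddCircle, t ∉ G := measure_eq_zero_iff_ae_notMem.1 h0
    have h2 : ∀ᵐ t : UnitAddCircle, False := by
      filter_upwards [hGae, h1] with t ha hb
      exact hb ha
    rw [eventually_false_iff_eq_bot, ae_eq_bot] at h2
    have h3 : (volume : Measure UnitAddCircle) univ = 0 := by rw [h2]; rfl
    rw [UnitAddCircle.measure_univ] at h3
    exact one_ne_zero h3
  refine hG (volume : Measure UnitAddCircle) (rot (α : UnitAddCircle)) (hmp _) (hsymm _) ?_ w hw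
    hwb G hG0 (fun t ht => ht) p T ?_
  · intro n hn
    refine Eventually.of_forall fun t => ?_
    rw [rot_zpow_apply]
    intro h
    exact zsmul_irrational_ne_zero hα hn (by simpa using h)
  · intro f
    exact hT f

/-- Every Bishop operator, on the circle. -/
theorem bishop_circle (hG : ModG.{0}) (hR : ModR) (hW : ModW) (hQ : ModQ) (α : ℝ) (p : ℝ≥0∞)
    [Fact (1 ≤ p)]
    (T : Lp ℂ p (volume : Measure UnitAddCircle) →L[ℂ] Lp ℂ p (volume : Measure UnitAddCircle))
    (hT : ∀ f, (T f : UnitAddCircle → ℂ) =ᵐ[volume]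
      fun t => (coord t : ℂ) * (f : UnitAddCircle → ℂ) (t + (α : UnitAddCircle))) :
    HasHyper T := by
  by_cases hα : Irrational α
  · obtain ⟨h1, h2, h3, h4, ω, h5, h6⟩ := hW
    have hnorm : ∀ t : UnitAddCircle, Real.log ‖(coord t : ℂ)‖ = Real.log (coord t) := by
      intro t
      rw [Complex.norm_real, Real.norm_eq_abs, Real.log_abs]
    refine circle_main hG hR (fun t => (coord t : ℂ)) (Complex.measurable_ofReal.comp h1)
      ⟨1, fun t => ?_⟩ ?_ ?_ ω h5 ?_ α hα p T hT
    · rw [Complex.norm_real]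
      exact h2 t
    · filter_upwards [h3] with t ht
      exact_mod_cast ht
    · simpa only [hnorm] using h4
    · simpa only [hnorm] using h6
  · exact hQ p α hα T hT

end Pool.Agent.Bishop
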