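import Pool.Agent.Lib_helper15.Bishop.All
import Pool.Agent.Lib_helper69.Bishop.ModAP

/-!
# Translations of abelian groups, weights with absolutely convergent Fourier series
-/

set_option autoImplicit false

universe u

namespace Pool.Agent.Bishop

open MeasureTheory Set Filter
open scoped ENNReal NNReal Topology

lemma addRight_zpow {K : Type*} [AddCommGroup K] (a : K) (n : ℤ) (x : K) :
    ((Equiv.addRight a : Equiv.Perm K) ^ n) x = x + n • a := by
  have hp : ∀ (m : ℕ) (y : K), ((Equiv.addRight a : Equiv.Perm K) ^ m) y = y + m • a := by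
    intro m
    induction m with
    | zero => intro y; simp
    | succ m ih =>
      intro y
      rw [pow_succ, Equiv.Perm.mul_apply, ih, Equiv.coe_addRight, succ_nsmul, add_assoc,
        add_comm a]
  obtain ⟨m, rfl | rfl⟩ := n.eq_nat_or_neg
  · rw [zpow_natCast, hp, natCast_zsmul]
  · rw [zpow_neg, zpow_natCast, neg_smul, natCast_zsmul]
    apply ((Equiv.addRight a : Equiv.Perm K) ^ m).injective
    have h : ((Equiv.addRight a : Equiv.Perm K) ^ m)
        ((((Equiv.addRight a : Equiv.Perm K) ^ m)⁻¹) x) = x :=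
      ((Equiv.addRight a : Equiv.Perm K) ^ m).apply_symm_apply x
    rw [h, hp]
    abel

theorem group_main {K : Type u} [AddCommGroup K] [TopologicalSpace K] [IsTopologicalAddGroup K]
    [SecondCountableTopology K] [T2Space K] [MeasurableSpace K] [BorelSpace K] (μ : Measure K)
    [SigmaFinite μ] (a : K) (hμ : μ ≠ 0) (ha : MeasurePreserving (fun x => x + a) μ μ)
    (hfree : ∀ n : ℤ, n ≠ 0 → n • a ≠ 0) (w : K → ℂ) (hw : Measurable w) (c : ℕ → ℂ)
    (χ : ℕ → AddChar K Circle) (hc : Summable fun k => ‖c k‖)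
    (hwc : ∀ x, ‖w x‖ = Real.exp (∑' k, c k * (χ k x : ℂ)).re)
    (p : ℝ≥0∞) [Fact (1 ≤ p)] (T : Lp ℂ p μ →L[ℂ] Lp ℂ p μ)
    (hT : ∀ f : Lp ℂ p μ, (T f : K → ℂ) =ᵐ[μ] fun x => w x * (f : K → ℂ) (x + a)) :
    HasHyper T := by
  have hnorm : ∀ (k : ℕ) (x : K), ‖c k * (χ k x : ℂ)‖ = ‖c k‖ := by
    intro k x
    rw [norm_mul, Circle.norm_coe, mul_one]
  refine modG_all μ (Equiv.addRight a) ha ?_ ?_ w hw ⟨Real.exp (∑' k, ‖c k‖), ?_⟩ univ ?_ ?_ p T ?_
  · have e : ⇑(Equiv.symm (Equiv.addRight a)) = fun x : K => x - a := by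
      funext x
      simp [sub_eq_add_neg]
    rw [e]
    exact measurable_sub_const' a
  · intro n hn
    refine Eventually.of_forall fun x => ?_
    rw [addRight_zpow]
    intro h
    exact hfree n hn (by simpa using h)
  · intro x
    rw [hwc]
    apply Real.exp_le_exp.2
    refine (Complex.re_le_norm _).trans ?_
    refine (norm_tsum_le_tsum_norm ?_).trans ?_
    · simpa only [hnorm] using hc
    · simp only [hnorm]
      exact le_rfl
  · rwa [ne_eq, Measure.measure_univ_eq_zero]
  · intro t _
    constructor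
    · intro n h0
      have h1 := hwc ((((Equiv.addRight a : Equiv.Perm K)) ^ n) t)
      rw [h0, norm_zero] at h1
      exact absurd h1.symm (Real.exp_pos _).ne'
    · refine modAP _ _ t (fun k => c k * (χ k t : ℂ)) (fun k => (χ k a : ℂ)) (fun k => by simp) ?_ ?_
      · simpa only [hnorm] using hc
      · intro n
        rw [hwc, Real.log_exp, addRight_zpow]
        congr 2
        funext k
        rw [AddChar.map_add_eq_mul, AddChar.map_zsmul_eq_zpow]
        push_cast
        ring
  · intro f
    exact hT f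

end Pool.Agent.Bishop
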