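import Pool.Agent.Lib_helper15.Bishop.Defs

/-!
# Assembly of the general theorem on weighted translation operators
-/

set_option autoImplicit false

universe u

namespace Pool.Agent.Bishop

open MeasureTheory Set Filter
open scoped ENNReal NNReal Topology

lemma summable_inv_sq_int (C : ℝ) : Summable fun n : ℤ => C / (1 + (n : ℝ) ^ 2) := by
  have h1 : Summable fun n : ℤ => 1 / (n : ℝ) ^ 2 := by
    rw [Real.summable_one_div_int_pow]
    norm_num
  have h2 : Summable fun n : ℤ => 1 / (1 + (n : ℝ) ^ 2) := by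
    refine Summable.of_norm_bounded_eventually h1 ?_
    have hfin : {n : ℤ | n ≠ 0} ∈ (cofinite : Filter ℤ) := by
      rw [mem_cofinite]
      convert Set.finite_singleton (0 : ℤ) using 1
      ext n
      simp
    filter_upwards [hfin] with n hn
    have hn' : (0 : ℝ) < (n : ℝ) ^ 2 := by
      have : (n : ℝ) ≠ 0 := by exact_mod_cast hn
      positivity
    rw [Real.norm_of_nonneg (by positivity)]
    exact one_div_le_one_div_of_le hn' (by linarith)
  have h3 := h2.mul_left C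
  refine h3.congr (fun n => ?_)
  rw [mul_one_div]

lemma exists_tail (C : ℝ) :
    ∃ N : ℕ, (∑' n : ℤ, if |n| ≤ N then 0 else C / (1 + (n : ℝ) ^ 2)) ≤ 1 / 2 := by
  have hs := summable_inv_sq_int C
  set f : ℤ → ℝ := fun n => C / (1 + (n : ℝ) ^ 2) with hf
  -- tail of the sum over the complement of a finite set
  have ht := tendsto_tsum_compl_atTop_zero f
  have he : ∀ᶠ s : Finset ℤ in atTop, (∑' a : {x // x ∉ s}, f a) ≤ 1 / 2 := by
    have := ht.eventually (gt_mem_nhds (show (0 : ℝ) < 1 / 2 by norm_num))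
    exact this.mono fun s hs => le_of_lt hs
  -- the sets {|n| ≤ N} are cofinal
  have hcof : Tendsto (fun N : ℕ => Finset.Icc (-(N : ℤ)) N) atTop atTop := by
    rw [tendsto_atTop]
    intro s
    obtain ⟨B, hB⟩ : ∃ B : ℕ, ∀ x ∈ s, |x| ≤ B := by
      refine ⟨s.sup Int.natAbs, fun x hx => ?_⟩
      have := Finset.le_sup (f := Int.natAbs) hx
      have h2 : |x| = (x.natAbs : ℤ) := Int.abs_eq_natAbs x
      rw [h2]
      exact_mod_cast this
    filter_upwards [eventually_ge_atTop B] with N hN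
    intro x hx
    rw [Finset.mem_Icc]
    have h1 := abs_le.1 (hB x hx)
    have h2 : (B : ℤ) ≤ N := by exact_mod_cast hN
    omega
  obtain ⟨N, hN⟩ := (hcof.eventually he).exists
  refine ⟨N, ?_⟩
  have key : (∑' n : ℤ, if |n| ≤ N then 0 else f n)
      = ∑' a : {x // x ∉ Finset.Icc (-(N : ℤ)) N}, f a := by
    rw [← tsum_subtype_eq_of_support_subset (s := {x : ℤ | x ∉ Finset.Icc (-(N : ℤ)) N})]
    · refine tsum_congr ?_
      rintro ⟨n, hn⟩
      have hn' : ¬ |n| ≤ (N : ℤ) := by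
        intro h
        apply hn
        rw [Finset.mem_Icc]
        exact abs_le.1 h
      simp [hn']
    · intro n hn
      simp only [Function.mem_support, ne_eq, ite_eq_left_iff, not_forall, exists_prop] at hn
      rw [Set.mem_ofPred_eq, Finset.mem_Icc]
      intro h
      exact hn.1 (abs_le.2 h)
  rw [key]
  exact hN

theorem modG (hK : ModK.{u}) (hA : ModA.{u}) (hT : ModT.{u}) (hU : ModU.{u}) (hH : ModH.{u}) :
    ModG.{u} := by
  intro X _ _ _ _ _ μ _ τ hτ hτs hfree w hw hwb G hG hGt p _ T hTf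
  classical
  obtain ⟨hK0, hK1, hKadd, hKsym, hKtame, hKw0, hKw⟩ := hK τ
  have hτm : Measurable τ := hτ.measurable
  have hzpow : ∀ n : ℤ, Measurable (fun t => (τ ^ n) t) := by
    intro n
    have hp : ∀ k : ℕ, Measurable (fun t => (τ ^ (k : ℤ)) t) := by
      intro k
      induction k with
      | zero => simpa using measurable_id'
      | succ k ih =>
        have : (fun t => (τ ^ ((k + 1 : ℕ) : ℤ)) t) = fun t => τ ((τ ^ (k : ℤ)) t) := by
          funext t
          rw [Nat.cast_succ, add_comm, zpow_add, zpow_one, Equiv.Perm.mul_apply]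
        rw [this]
        exact hτm.comp ih
    have hn : ∀ k : ℕ, Measurable (fun t => (τ ^ (-(k : ℤ))) t) := by
      intro k
      induction k with
      | zero => simpa using measurable_id'
      | succ k ih =>
        have : (fun t => (τ ^ (-((k + 1 : ℕ) : ℤ))) t) = fun t => τ.symm ((τ ^ (-(k : ℤ))) t) := by
          funext t
          rw [Nat.cast_succ, neg_add, add_comm, zpow_add, zpow_neg_one, Equiv.Perm.mul_apply]
          rfl
        rw [this]
        exact hτs.comp ih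
    obtain ⟨k, rfl | rfl⟩ := n.eq_nat_or_neg
    · exact hp k
    · exact hn k
  have hsymm_pow : ∀ (n : ℤ) (t : X), (τ.symm ^ n) t = (τ ^ (-n)) t := by
    intro n t
    have : (τ.symm : Equiv.Perm X) = τ⁻¹ := rfl
    rw [this, inv_zpow, zpow_neg]
  -- the set where w does not vanish on the orbit
  set N0 : Set X := {t | ∀ n : ℤ, w ((τ ^ n) t) ≠ 0} with hN0
  have hN0m : MeasurableSet N0 := by
    have : N0 = ⋂ n : ℤ, (fun t => w ((τ ^ n) t)) ⁻¹' {0}ᶜ := by
      ext t
      simp [hN0]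
    rw [this]
    exact MeasurableSet.iInter fun n =>
      (hw.comp (hzpow n)) (MeasurableSet.singleton 0).compl
  set φ : X → ℝ := fun t => Real.log ‖w t‖ with hφ
  have hφm : Measurable φ := Real.measurable_log.comp hw.norm
  set w' : X → ℂ := fun t => -(w (τ.symm t)) with hw'
  have hw'm : Measurable w' := (hw.comp hτs).neg
  set φ' : X → ℝ := fun t => Real.log ‖w' t‖ with hφ'
  have hφ'eq : φ' = fun t => φ (τ.symm t) := by
    funext t
    simp [hφ', hw', hφ]
  have hφ'm : Measurable φ' := Real.measurable_log.comp hw'm.norm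
  have hτs' : Measurable (τ.symm : Equiv.Perm X) := hτs
  have hτss : Measurable (τ.symm.symm : Equiv.Perm X) := by simpa using hτm
  have hτsmp : MeasurePreserving (τ.symm : Equiv.Perm X) μ μ := by
    refine ⟨hτs, ?_⟩
    conv_lhs => rw [← hτ.map_eq]
    rw [Measure.map_map hτs hτm]
    simp
  -- tame for the two systems
  obtain ⟨G₁, E₁, C₁, hG₁m, hG₁, hE₁m, hE₁d, hE₁0, hE₁b⟩ :=
    hT μ τ hτm hτs φ hφm 1 one_pos G hG (fun t ht => (hGt t ht).2)
  obtain ⟨G₂, E₂, C₂, hG₂m, hG₂, hE₂m, hE₂d, hE₂0, hE₂b⟩ :=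
    hT μ τ.symm hτs hτss φ' hφ'm 1 one_pos G hG (fun t ht => by
      have := hKtame φ t (hGt t ht).2
      rw [hφ'eq]
      exact this)
  obtain ⟨N₁, hN₁⟩ := exists_tail C₁
  obtain ⟨N₂, hN₂⟩ := exists_tail C₂
  have hpos : ∀ H : Set X, μ (G ∩ H) ≠ 0 → μ (H ∩ N0) ≠ 0 := by
    intro H hH0 hz
    apply hH0
    refine measure_mono_null ?_ hz
    intro t ht
    exact ⟨ht.2, (hGt t ht.1).1⟩
  obtain ⟨A₁, hA₁s, hA₁m, hA₁0, hA₁f, hA₁d⟩ :=
    hA μ τ hτm hτs hfree (G₁ ∩ N0) (hG₁m.inter hN0m) (hpos _ hG₁) N₁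
  have hfree' : ∀ n : ℤ, n ≠ 0 → ∀ᵐ t ∂μ, (τ.symm ^ n) t ≠ t := by
    intro n hn
    filter_upwards [hfree (-n) (neg_ne_zero.2 hn)] with t ht
    rw [hsymm_pow]
    exact ht
  obtain ⟨A₂, hA₂s, hA₂m, hA₂0, hA₂f, hA₂d⟩ :=
    hA μ τ.symm hτs hτss hfree' (G₂ ∩ N0) (hG₂m.inter hN0m) (hpos _ hG₂) N₂
  have hwne : ∀ s ∈ A₁, ∀ n : ℤ, w ((τ ^ n) s) ≠ 0 := fun s hs => (hA₁s hs).2
  have hw'ne : ∀ s ∈ A₂, ∀ n : ℤ, w' ((τ.symm ^ n) s) ≠ 0 := by
    intro s hs n
    have h1 := (hA₂s hs).2 (-n - 1)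
    have h2 : τ.symm ((τ.symm ^ n) s) = (τ ^ (-n - 1)) s := by
      have e1 : τ.symm ((τ.symm ^ n) s) = (τ.symm ^ (1 + n)) s := by
        rw [zpow_add, zpow_one, Equiv.Perm.mul_apply]
      rw [e1, hsymm_pow]
      congr 2
      ring
    simp only [hw', neg_ne_zero, h2]
    exact h1
  -- the conjugate exponent
  set q : ℝ≥0∞ := ENNReal.conjExponent p with hq
  have : Fact (1 ≤ q) := ⟨by rw [hq]; unfold ENNReal.conjExponent; exact le_self_add⟩
  have : ENNReal.HolderConjugate p q := by rw [hq]; infer_instance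
  obtain ⟨U, hUd, hUf, ⟨CU, hUb⟩, hU0⟩ :=
    hU μ τ hτ hτs w hw p A₁ hA₁m hA₁f hA₁0 hwne E₁ C₁ 1 N₁ hE₁m hE₁d
      (fun s hs => hE₁0 s (hA₁s hs).1)
      (fun s hs n z hz => by
        have h1 := hE₁b s (hA₁s hs).1 n z hz
        have h2 := (hKw w s (hwne s hs) n).2.2
        rw [h2]
        exact h1)
      hA₁d hN₁
  obtain ⟨hK0', hK1', hKadd', hKsym', hKtame', hKw0', hKw'⟩ := hK τ.symm
  obtain ⟨V, hVd, hVf, ⟨CV, hVb⟩, hV0⟩ :=
    hU μ τ.symm hτsmp hτss w' hw'm q A₂ hA₂m hA₂f hA₂0 hw'ne E₂ C₂ 1 N₂ hE₂m hE₂d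
      (fun s hs => hE₂0 s (hA₂s hs).1)
      (fun s hs n z hz => by
        have h1 := hE₂b s (hA₂s hs).1 n z hz
        have h2 := (hKw' w' s (hw'ne s hs) n).2.2
        rw [h2]
        exact h1)
      hA₂d hN₂
  refine hH μ τ hτ hτs w hw hwb p q T hTf U V (max CU CV) 1 zero_le_one ?_ hUd hVd hUf hVf ?_ ?_
    hU0 hV0
  · linarith [Real.pi_gt_three]
  · intro z hz
    refine (hUb z hz).trans ?_
    exact mul_le_mul_of_nonneg_right (le_max_left _ _) (Real.exp_pos _).le
  · intro z hz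
    refine (hVb z hz).trans ?_
    exact mul_le_mul_of_nonneg_right (le_max_right _ _) (Real.exp_pos _).le

end Pool.Agent.Bishop
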